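import Pool.Agent.Helper61.BT.Goals

/-!
# Project BT (MP_266b34_co): packet TRG, triangular systems
-/

set_option autoImplicit false

namespace Pool.Agent.Helper81.BT

open Pool.Agent.Helper61.BT

universe u

/-- **TRG.** Triangular systems. -/
theorem trg : TrgStmt.{u} := by
  intro M _ _ k D π hπ hD w hw η hη
  have key : ∀ m : ℕ, ∃ d ∈ D, ∀ i : Fin k, k ≤ (i : ℕ) + m → ‖π i (d i) - w i‖ < η := by
    intro m
    induction m with
    | zero =>
      refine ⟨0, D.zero_mem, fun i hi => ?_⟩
      exact absurd i.2 (by omega)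
    | succ m ih =>
      obtain ⟨d, hd, h⟩ := ih
      by_cases hm : m + 1 ≤ k
      · have hi0 : k - (m + 1) < k := by omega
        obtain ⟨i0, hi0'⟩ : ∃ i0 : Fin k, (i0 : ℕ) = k - (m + 1) := ⟨⟨_, hi0⟩, rfl⟩
        have hw' : π i0 (w i0 - π i0 (d i0)) = w i0 - π i0 (d i0) := by
          rw [map_sub, hw, hπ]
        obtain ⟨d', hd', h1, h2⟩ := hD i0 _ hw' (η / (‖π i0‖ + 1)) (by positivity)
        refine ⟨d + d', D.add_mem hd hd', fun i hi => ?_⟩
        by_cases hii : i = i0
        · subst hii
          have e : π i ((d + d') i) - w i = π i (d' i - (w i - π i (d i))) := by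
            rw [Pi.add_apply, map_add, map_sub, map_sub, hw, hπ]
            abel
          rw [e]
          have h3 : ‖π i (d' i - (w i - π i (d i)))‖ ≤ ‖π i‖ * ‖d' i - (w i - π i (d i))‖ :=
            (π i).le_opNorm _
          have h4 : ‖π i‖ * ‖d' i - (w i - π i (d i))‖ ≤ ‖π i‖ * (η / (‖π i‖ + 1)) :=
            mul_le_mul_of_nonneg_left h1.le (norm_nonneg _)
          have h5 : ‖π i‖ * (η / (‖π i‖ + 1)) < η := by
            have h6 : 0 < ‖π i‖ + 1 := by positivity
            rw [← mul_div_assoc, div_lt_iff₀ h6]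
            nlinarith [norm_nonneg (π i)]
          exact lt_of_le_of_lt (h3.trans h4) h5
        · have hne : (i : ℕ) ≠ i0 := fun h3 => hii (Fin.ext h3)
          have hlt : i0 < i := by
            rw [Fin.lt_def]
            omega
          rw [Pi.add_apply, h2 i hlt, add_zero]
          exact h i (by omega)
      · refine ⟨d, hd, fun i hi => h i (by omega)⟩
  obtain ⟨d, hd, h⟩ := key k
  exact ⟨d, hd, fun i => h i (by omega)⟩

end Pool.Agent.Helper81.BT
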